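import Mathlib
import Pool.Agent.H280R3.D6.Main

open Set
open scoped ContDiff

namespace Pool.Agent.Results.MP_fd8964_an.GalerkinBlowup

open Pool.Agent.H280R3.W Pool.Agent.H280R3.D6

/-- Finite-time blow-up at a single interior point, after an arbitrarily short time and from an
`L²`-dense set of data, for infinite-dimensional Galerkin projections of the unforced Navier-Stokes
equations with Dirichlet conditions on an arbitrary open set, with the full viscosity and the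
exact quadratic term. One space serves all viscosities, and all the Prodi-Serrin norms diverge. -/
theorem result (Ω : Set V) (hΩ : IsOpen Ω) (w : V → V) (hw : ContDiff ℝ ∞ w)
    (hwc : HasCompactSupport w) (hwΩ : tsupport w ⊆ Ω) (hwd : ∀ x, divg w x = 0)
    (p : V) (hpΩ : p ∈ Ω) (hp : p ∉ tsupport w) (ε : ℝ) (hε : 0 < ε) :
    ∃ Φ : ℕ → V → V, Admissible Ω Φ ∧
      (∀ x, ε ≤ ‖x - p‖ → Φ 0 x = w x ∧ ∀ n, Φ (n + 1) x = 0) ∧
      mass Ω (Φ 0 - w) (Φ 0 - w) < ε ∧
      ∀ v ∈ Submodule.span ℝ (range Φ), ∀ ν₀ > 0, ∀ η > 0,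
        ∃ u₀ ∈ Submodule.span ℝ (range Φ), mass Ω (u₀ - v) (u₀ - v) < η ∧
          (mass Ω v (Φ 0) ≠ 0 → ∀ x, η ≤ ‖x - p‖ → u₀ x = v x) ∧ Explodes Ω p Φ u₀ ν₀ η :=
  main Ω hΩ w hw hwc hwΩ hwd p hpΩ hp ε hε

end Pool.Agent.Results.MP_fd8964_an.GalerkinBlowup
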