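import Mathlib
import Pool.Agent.H319R3.GV.Pub
import Pool.Agent.H319R3.GV.Bridge2

open MeasureTheory Set Filter Topology H772R2.NS.Pub Pool.Agent.H319R3.GV
open scoped InnerProductSpace ENNReal

/-- **Generic time dependent viscosities.** Let `Ω ⊆ ℝ³` be bounded and open, `ν > 0`, `u₀ ∈ V` with
gradient `z₀`, let the force be given by `⟨f(t), φ⟩ = (F(t), ∇φ)` with `F ∈ H¹(0,T; L²)` for every
`T`, and suppose that the initial acceleration is in `L²` (which holds if `u₀ ∈ V ∩ H²` and
`f(0) ∈ H`). Let `2 ≤ p ≤ 5` and let `Visc p` be the complete metric space of all `λ ∈ L^p(0,∞)` with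
`λ ≥ 0`. Consider the Navier-Stokes equations with viscosity `ν + λ(t)`.
* For every `T > 0` the set of the `λ` for which there is a strong solution on `[0,T]`, with
  `∂_t u ∈ L²(0,T; V) ∩ L^∞(0,T; L²)`, is dense in `Visc p`.
* There is a dense `G_δ` set `R` in `Visc p` such that for every `λ ∈ R` and every `T > 0` the problem
  is well-posed on `[0,T]` in the sense of Hadamard in the class of Leray-Hopf weak solutions:
  there is exactly one Leray-Hopf solution, it is continuous with values in `L²_σ` and satisfies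
  the energy equality, and all Leray-Hopf solutions for nearby viscosities, forces and initial
  velocities are close to it. -/
theorem Pool.Agent.Results.MP_fd8964_an.GenericViscosity.result :
    ∀ {Ω : Set R3}, IsOpen Ω → Bornology.IsBounded Ω → ∀ {ν : ℝ}, 0 < ν →
      ∀ {u0 : L2 Ω R3} {F : ℝ → L2 Ω Mat}, Pub.IsData Ω ν u0 F →
      ∀ (p : ℝ≥0∞) [Fact (1 ≤ p)], 2 ≤ p → p ≤ 5 →
      (∀ T, 0 < T → Dense {f : Pub.Visc p | Pub.HasStrong Ω ν T f.fn F u0}) ∧
      ∃ R : Set (Pub.Visc p), IsGδ R ∧ Dense R ∧ ∀ f ∈ R, ∀ T, 0 < T →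
        Pub.IsWellPosed Ω ν T (fun t => ν + f.fn t) F u0 := by
  rintro Ω hΩ hb ν hν u0 F ⟨⟨z0, h0, hc⟩, F', hF⟩ p _ hp2 hp5
  exact ⟨fun T hT => strong_pub hΩ hb hν h0 hF hc hp5 hT,
    generic_pub hΩ hb hν h0 hF hc hp2 hp5⟩
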